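import Pool.Agent.Helper43.AC9.Main
import Pool.Agent.Helper43.AC9.Single
import Pool.Agent.Helper43.V7.Fin
import Pool.Agent.Helper48.V9.Weighted

/-!
# Motives of abelian covers of the plane and of elliptic surfaces

Let `Ω` be an algebraic closure of a finite field, `T` the thick tensor subcategory of the category
of motives over `Ω` (with coefficients in an algebraic closure of `ℚ`) which is generated by the
motives of curves, and `P K` the statement: each finitely generated extension of `Ω` in `K` has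
transcendence degree at most two and is the function field of a curve or a smooth projective surface
with motive in `T`. This class has the properties of `IsMotivic`:

* `sub`, `product`: clear;
* `abelian`: for a finite abelian group `G` acting on a surface `X` the motive `M(X)` is the sum of
  its eigenparts `M(X)_χ`, and `M(X)_χ` comes from the surface `X / ker χ`, a cyclic cover of
  `X / G`;
* `twist`: let `K = B(w)`, `w ^ n ∈ B = Ω(x, y, z)`, `z` algebraic over `Ω(x, y)`, `[K : B] = n`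
  prime to the characteristic, belong to the surface `S`, and let `C` be the curve
  `u ^ n = v ^ α * (1 - v) ^ β`, where `gcd(α, β, n) = 1`. The group `μ_n` acts on `S` and on `C`,
  and the function field of the threefold `Y = (S × C) / μ_n` is `B(v, s)`, `s = u / w`. If `Y` is
  uniruled, then `M(S)_χ` is in `T` for all characters `χ` of `μ_n` for which `χ ^ α`, `χ ^ β` and
  `χ ^ (α + β)` are nontrivial. The other characters of order `m` have `m ∣ α`, `m ∣ β` or
  `m ∣ α + β` and belong to the surface with the function field `B(w ^ (n / m))`;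
* `wild`: the same for the characteristic `p`, `w ^ p - w ∈ B`, `[K : B] = p`, and the curve
  `C : u ^ p - u = s ^ 2` (`u ^ 2 - u = s ^ 3` if `p = 2`), with the action of the additive group of
  order `p` by `u ↦ u + c`. The function field of `Y` is `B(v, s)`, `v = u - w`. Every nontrivial
  character occurs in `h ^ 1(C)`, and its multiplicity is one (two if `p = 2`). The trivial character
  belongs to the surface with the function field `B`.

Proof of the statement on `Y` (the curve `C` has positive genus if there is such a `χ`). A rational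
curve through the generic point of `Y` is not in a fibre of `Y → S / G`, `G` the group, because the
generic fibre is `C`. Hence it meets the inverse image `H` of an ample curve `ℓ` of `S / G`. Let `e`
be the projector on `S × C` which cuts out `M(Y)`. The generic point is rationally equivalent to a
point of `H`, so a nonzero multiple `N * e` is a sum of two correspondences `G₁ + G₂`, where `G₁`
factors through the product of `C` with the inverse image of `ℓ` in `S`, a product of curves, and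
`G₂ = γ ∘ i ^ *` for the inclusion `i` of a surface `W`. Then `N ^ 2 * e = (G₁ + G₂) ∘ (G₁ᵗ + G₂ᵗ)`,
and `G₂ ∘ G₂ᵗ = γ ∘ (i ^ * ∘ i_*) ∘ γᵗ`, where `i ^ * ∘ i_*` is given by a cycle of dimension one
on `W × W` and factors through curves. So `M(Y)` is in `T`. It contains
`M(S)_χ ⊗ h ^ 1(C)_χ'`, where `χ'` is the inverse of `χ`, and `h ^ 1(C)_χ'` is odd of rank one (two in
`wild` for `p = 2`); so `M(S)_χ` is a direct summand of the tensor product of `M(Y)` and the dual of
`h ^ 1(C)_χ'`.

If `P K` holds, and `K` is the function field of a variety over `Ω` which comes from a variety `X` of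
dimension two over a finite field, then `H ^ i(X, ℤ ^ c(n))` is finite for `n < 0` and all `i`, also
if `X` is singular, and the same holds for the products of such varieties, because their motives are
of Kimura type and the geometric Frobenius acts on these groups, up to finite groups, as a power of
the cardinality of the field which is not an eigenvalue (Soulé, Kahn).

The theorem: `K` is in the class if it is a finite abelian extension of `R` and each intermediate
field `M` with a cyclic group `Gal(M / R)` is in the class, or `M = B(w)`, `R ⊆ B`, `n = [M : B]`, and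
one of the following conditions holds.

(a) `IsTwist`, `IsWild`: the threefold `Y` of `twist` or `wild` is uniruled.

(b) `IsCurve`: `B = Ω(x, y)`, `n` is prime to the characteristic, and
`w ^ n = f₁ ^ e₁ * ⋯ * fᵣ ^ eᵣ`, branched along a curve `F₁ * ⋯ * Fᵣ = 0` in the plane, or in the
weighted plane `P(a, b, 1)`, with components of the degrees `dᵢ`, where

* `n ≤ 10` for the plane, `n ≤ 6` for the weighted planes, and for `k < n`, where `2 * k ≠ n` or
  `n = 2`, one of the sums `S(k)` and `S(n - k)` is at most `a + b`, where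
  `S(k) = ∑ dᵢ * ⟨k * eᵢ / n⟩` and `⟨ ⟩` is the fractional part;
* or the curve is a plane curve of degree at most four, or of degree five and at most one `Fᵢ` is
  linear, and `n` is arbitrary.

If a plane curve has normal crossings, then the part of `H ^ 2(O)` of the cover which belongs to the
`k`-th power of a generator of the group of the characters has the dimension
`(S(k) - 1) * (S(k) - 2) / 2`, up to the sign of `k`, and the first condition says that
`h ^ {2, 0} * h ^ {0, 2} = 0` for the parts which belong to the characters `c` with `c ^ 2 ≠ 1`, or to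
all `c` if `n = 2`. So `K / R` may be any finite abelian extension of `R = Ω(x, y)`, of exponent at
most ten and of degree prime to the characteristic, which has this property for all characters `c`.
No condition on the singularities and on the degree of the curve is imposed. The weighted planes
`P(1, m, 1)` are birational to the ruled surfaces `F_m`.

(c) `IsWildCurve`: `B = Ω(x, y)`, `n = p` is the characteristic, and `w ^ p - w = f / g ^ 2`, where for
some weights of the variables `x`, `y` with the sum `σ > 0` and for `P = max(p, 3)`, `deg g ≤ σ` and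
`(P - 2) * deg f + 4 * deg g ≤ 2 * P * σ`. For `g = 1` and the ordinary degree, `σ = 2`, this is
`deg f ≤ 12` if `p ≤ 3`, `deg f ≤ 6` if `p = 5`, `deg f ≤ 5` if `p = 7`, and `deg f ≤ 4` if `p > 7`.

(d) `IsElliptic`: `B = Ω(x, y, t)` for `t = w ^ n`, or `n = p` is the characteristic and
`t = w ^ p - w`, and `y ^ 2 + a₁ * x * y + a₃ * y = x ^ 3 + a₂ * x ^ 2 + a₄ * x + a₆`, where `aᵢ` is a
polynomial in `t`. The degree of `aᵢ` is at most `i / 2`, or, for `n > 2` and `t = w ^ n`, at most
`i * (1 + ⌊n / 2⌋) / n`, or, for `t = w ^ p - w`, at most `i * (P + 2) / (2 * P)`, `P = max(p, 3)`: this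
is `5 * i / 6` if `p ≤ 3` (so `a₂`, `a₃`, `a₄`, `a₆` have degrees at most `1`, `2`, `3`, `5`), and
`7 * i / 10` if `p = 5`. The threefold `Y` is a double cover of a weighted projective space with a
negative canonical class, for example by `t = v * (1 - v) / s ^ n`.

Examples, which are proved below:

* `elliptic_power`, `elliptic_additive`: all elliptic surfaces with these equations, if `t = w ^ n`
  for any `n` prime to the characteristic, or `t = L(w)` for any separable additive polynomial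
  `L(w) = l₀ * w + l₁ * w ^ p + ⋯ + l_e * w ^ p ^ e`, for example for `L(w) = w ^ q - w`, and the degree
  of `aᵢ` is at most `i / 2` (or at most the larger bounds in (d); then for `t = w ^ n`, `n` even, the
  K3 surface with the coordinate `w ^ (n / 2)` has to be in the class). For `deg aᵢ ≤ i / 2` there are
  five moduli, and the geometric genus is `⌈n / 2⌉ - 1`, or `⌈q / 2⌉ - 1` for `q = deg L`. The fields
  `M` are `B(w')`, `w' ^ p - w' = c * t`, `c ∈ Ω`, if `t = L(w)`. (An inseparable additive polynomial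
  is a power `L₁(w) ^ p ^ j` for a separable `L₁`, and then `K` is contained in a field of this kind,
  the one for `L₁` and the `p ^ j`-th roots of `x`, `y` and of the coefficients of `aᵢ`.)
* `plane`: the composites of the covers `Lᵢ(wᵢ) = fᵢ / g ^ 2` of the plane, for separable additive
  polynomials `Lᵢ` and `fᵢ`, `g` as in (c); for example `w ^ q - w = f(x, y)` for all powers `q` of `p`;
* `power`, `additive`: `F(x, y, t) = 0` for `t = w ^ n` or `t = L(w)`, where for some weights `a`, `b`,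
  `2 * c` of the variables the degree of `F` is at most `a + b + c`;
* `double_power`, `double_additive`: `y ^ 2 = G(x, t) * y + F(x, t)` for `t = w ^ n` or `t = L(w)`.
-/

set_option autoImplicit false

namespace Pool.Agent.Results.MP_e93a6a_ag.AbelianCovers

open IntermediateField MvPolynomial Pool.Agent.Helper75.QC
open Pool.Agent.Helper43.AC7 (IsAbelianExt IsCyclicExt)
open Pool.Agent.Helper43.AC9 (IsMotivic IsArtinSchreier IsWildTwist)

/-- The equation `w ^ n = f₁(x, y) ^ e₁ * ⋯ * fᵣ(x, y) ^ eᵣ`, `n = [M : Ω(x, y)]`, `M = Ω(x, y, w)`,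
`R ⊆ Ω(x, y)`, for a curve with the equation `F₁ * ⋯ * Fᵣ = 0` in the weighted plane `P(a, b, 1)`,
where `Fᵢ(x, y, 1) = fᵢ` and `dᵢ = deg Fᵢ`. Either `n ≤ 6`, or `n ≤ 10` and `a = b = 1`, the curve is
arbitrary, and `h ^ {2, 0} * h ^ {0, 2} = 0` for all the characters of order different from one and
two (and for the character of order two if `n = 2`), if the curve has only nodes: the Hodge number
`h ^ {2, 0}` of the character `k` or `-k` is zero if `∑ dᵢ * (k * eᵢ % n) ≤ n * (a + b)` (if and only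
if, for `a = b = 1`). Or `a = b = 1` and the degree is at most four, or five and at most one `Fᵢ` is
linear. -/
def IsCurve (Ω R M : Type) [Field Ω] [Field R] [Field M] [Algebra Ω M] [Algebra R M] : Prop :=
  ∃ (n a b r : ℕ) (d e : Fin r → ℕ) (f : Fin r → MvPolynomial (Fin 2) Ω) (x y w : M),
    (∀ r : R, algebraMap R M r ∈ adjoin Ω {x, y}) ∧ adjoin Ω {x, y, w} = ⊤ ∧
    Module.finrank (adjoin Ω {x, y}) M = n ∧
    (∀ i, ∀ m ∈ (f i).support, a * m 0 + b * m 1 ≤ d i) ∧ n ∣ ∑ i, d i * e i ∧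
    ((0 < a + b ∧ n ≤ 6 ∨ a = 1 ∧ b = 1 ∧ n ≤ 10) ∧
        (∀ k < n, 2 * k ≠ n ∨ n = 2 → ∑ i, d i * (k * e i % n) ≤ n * (a + b) ∨
          ∑ i, d i * ((n - k) * e i % n) ≤ n * (a + b)) ∨
      a = 1 ∧ b = 1 ∧
        (∑ i, d i ≤ 4 ∨ ∑ i, d i = 5 ∧ (Finset.univ.filter fun i => d i = 1).card ≤ 1)) ∧
    w ^ n = ∏ i, aeval ![x, y] (f i) ^ e i

/-- `M = B(w)`, `w ^ n ∈ B`, `n = [M : B]`, where `B = Ω(x, y, z)`, `z` algebraic over `Ω(x, y)`,
contains `R`, and the threefold `v ^ a * (1 - v) ^ b = (s * w) ^ n` over `B` is uniruled. -/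
def IsTwist (Ω R M : Type) [Field Ω] [Field R] [Field M] [Algebra Ω M] [Algebra R M] : Prop :=
  ∃ (n a b : ℕ) (x y z w : M), IsAlgebraic (adjoin Ω {x, y}) z ∧
    (∀ r : R, algebraMap R M r ∈ adjoin Ω {x, y, z}) ∧ adjoin Ω {x, y, z, w} = ⊤ ∧
    Module.finrank (adjoin Ω {x, y, z}) M = n ∧ w ^ n ∈ adjoin Ω {x, y, z} ∧
    (a.gcd b).Coprime n ∧ ¬ n ∣ a ∧ ¬ n ∣ b ∧ ¬ n ∣ a + b ∧
    ∀ (N : Type) [Field N] [Algebra Ω N] (g : M →ₐ[Ω] N) (v s : N),
      Transcendental g.fieldRange v → v ^ a * (1 - v) ^ b = (s * g w) ^ n →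
      Uniruled Ω (adjoin Ω {g x, g y, g z, v, s} : IntermediateField Ω N) 3

/-- `M = B(w)`, `w ^ p - w ∈ B`, `p = [M : B]` is the characteristic, where `B = Ω(x, y, z)`, `z`
algebraic over `Ω(x, y)`, contains `R`, and the threefold `v ^ p - v = s ^ 2 - (w ^ p - w)` (`s ^ 3` if
`p = 2`) over `B` is uniruled. -/
def IsWild (Ω R M : Type) [Field Ω] [Field R] [Field M] [Algebra Ω M] [Algebra R M] : Prop :=
  ∃ (p : ℕ) (x y z w : M), (∀ r : R, algebraMap R M r ∈ adjoin Ω {x, y, z}) ∧
    IsArtinSchreier Ω x y z w p ∧ IsWildTwist Ω x y z w p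

/-- `M = Ω(x, y, w)`, `R ⊆ Ω(x, y)`, `p = [M : Ω(x, y)]` is the characteristic, and
`w ^ p - w = f(x, y) / g(x, y) ^ 2`. For the weights `a`, `b` of `x`, `y` the degree of `f` is at most
`d`, and the degree of `g` is at most `e ≤ a + b`. -/
def IsWildCurve (Ω R M : Type) [Field Ω] [Field R] [Field M] [Algebra Ω M] [Algebra R M] : Prop :=
  ∃ (p a b d e : ℕ) (f g : MvPolynomial (Fin 2) Ω) (x y w : M), p.Prime ∧ (p : Ω) = 0 ∧
    (∀ r : R, algebraMap R M r ∈ adjoin Ω {x, y}) ∧ adjoin Ω {x, y, w} = ⊤ ∧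
    Module.finrank (adjoin Ω {x, y}) M = p ∧ aeval ![x, y] g ≠ 0 ∧
    (w ^ p - w) * aeval ![x, y] g ^ 2 = aeval ![x, y] f ∧
    (∀ m ∈ f.support, a * m 0 + b * m 1 ≤ d) ∧ (∀ m ∈ g.support, a * m 0 + b * m 1 ≤ e) ∧
    0 < a + b ∧ e ≤ a + b ∧ (max p 3 - 2) * d + 4 * e ≤ 2 * max p 3 * (a + b)

/-- `y ^ 2 + a₁ * x * y + a₃ * y = x ^ 3 + a₂ * x ^ 2 + a₄ * x + a₆`, where `aᵢ` is a polynomial in `t`,
and `k * deg aᵢ ≤ m * i`. -/
def IsWeierstrass (Ω : Type) {K : Type} [Field Ω] [Field K] [Algebra Ω K] (k m : ℕ) (x y t : K) :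
    Prop :=
  ∃ a : ℕ → Polynomial Ω, (∀ i, k * (a i).natDegree ≤ m * i) ∧
    y ^ 2 + Polynomial.aeval t (a 1) * x * y + Polynomial.aeval t (a 3) * y =
      x ^ 3 + Polynomial.aeval t (a 2) * x ^ 2 + Polynomial.aeval t (a 4) * x +
        Polynomial.aeval t (a 6)

/-- `M = Ω(x, y, w)`, `R ⊆ B = Ω(x, y, t)`, `n = [M : B]`, and the equation of an elliptic surface
holds, where `t = w ^ n`, or `n` is the characteristic and `t = w ^ n - w`. -/
def IsElliptic (Ω R M : Type) [Field Ω] [Field R] [Field M] [Algebra Ω M] [Algebra R M] : Prop :=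
  ∃ (n : ℕ) (x y w t : M), (∀ r : R, algebraMap R M r ∈ adjoin Ω {x, y, t}) ∧
    adjoin Ω {x, y, w} = ⊤ ∧ Module.finrank (adjoin Ω {x, y, t}) M = n ∧
    (t = w ^ n ∧ IsWeierstrass Ω 2 1 x y t ∨
      t = w ^ n ∧ 2 < n ∧ IsWeierstrass Ω n (1 + n / 2) x y t ∨
      t = w ^ n - w ∧ n.Prime ∧ (n : Ω) = 0 ∧ IsWeierstrass Ω (2 * max n 3) (max n 3 + 2) x y t)

theorem IsCurve.row {Ω R M : Type} [Field Ω] [IsAlgClosed Ω] [Field R] [Field M] [Algebra Ω R]
    [Algebra Ω M] [Algebra R M] [IsScalarTower Ω R M] [FiniteDimensional R M] [IsGalois R M]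
    {P : (K : Type) → [Field K] → [Algebra Ω K] → Prop} (hP : IsMotivic Ω P)
    (h : IsCurve Ω R M) : P M ∨ Pool.Agent.Helper35.V7.Row3 Ω R M := by
  obtain ⟨n, a, b, r, d, e, f, x, y, w, hR, hM, rfl, hf, hdvd, h, hw⟩ := h
  have hdeg : a = 1 → b = 1 → ∀ i, (f i).totalDegree ≤ d i := by
    rintro rfl rfl i
    refine Finset.sup_le fun m hm => ?_
    have h1 := hf i m hm
    rw [one_mul, one_mul] at h1
    rw [Finsupp.sum_fintype _ _ (fun _ => rfl), Fin.sum_univ_two]
    exact h1
  rcases h with ⟨⟨hab, hn⟩ | ⟨h1, h2, hn⟩, hnat⟩ | ⟨h1, h2, h3⟩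
  · refine Pool.Agent.Helper43.AC9.row_of_list hP
      ((Pool.Agent.Helper48.V9.IsWCurve.row (R := R) x y w hR hM
      ⟨a, b, r, d, e, f, hab, hn, hf, fun k hk hkn => hnat k hk ?_, hw⟩).imp id Or.inl)
    by_contra hcon
    push Not at hcon
    obtain ⟨h1, h2⟩ := hcon
    have h3 : k ∣ 1 := by
      rw [← hkn]
      exact Nat.dvd_gcd dvd_rfl ⟨2, by rw [← h1, mul_comm]⟩
    have h4 := Nat.dvd_one.1 h3
    omega
  · have hd := hdeg h1 h2
    subst h1 h2
    refine Pool.Agent.Helper43.AC9.row_of_list hP (Or.inr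
      (Pool.Agent.Helper43.V7.lstN_natM' x y w hR hM rfl hn d e f hd hdvd (fun k hk h3 => ?_) hw))
    have h4 := hnat k hk h3
    rwa [mul_comm 2]
  · rcases Pool.Agent.Helper43.AC.curve_free hP.toAC7.toAC x y w hR hM d e f (hdeg h1 h2)
      (by omega) hdvd (h3.imp_right And.right) hw with h | h
    · exact Or.inl h
    · exact Pool.Agent.Helper43.AC9.row_of_list hP (Or.inr (Or.inl h))

theorem IsWildCurve.row {Ω R M : Type} [Field Ω] [IsAlgClosed Ω] [Field R] [Field M]
    [Algebra Ω M] [Algebra R M] (h : IsWildCurve Ω R M) : Pool.Agent.Helper48.V9.RowV Ω R M := by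
  obtain ⟨p, a, b, d, e, f, g, x, y, w, hp, hpΩ, hR, hM, hn, hg0, hw, hf, hg, hab, he, hd⟩ := h
  have hpf : Fact p.Prime := ⟨hp⟩
  have hch : CharP Ω p := (CharP.charP_iff_prime_eq_zero hp).2 hpΩ
  let _ : Algebra (ZMod p) Ω := ZMod.algebra Ω p
  exact ⟨p, hp, hpΩ, Pool.Agent.Helper43.AC9.rowW_plane' hR hM hn hab hf hg he hd hg0 hw⟩

theorem IsElliptic.row {Ω R M : Type} [Field Ω] [IsAlgClosed Ω] [Field R] [Field M] [Algebra Ω R]
    [Algebra Ω M] [Algebra R M] [IsScalarTower Ω R M] [FiniteDimensional R M] [IsGalois R M]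
    (h : IsElliptic Ω R M) : Uniruled Ω M 2 ∨ Pool.Agent.Helper35.V7.Row3 Ω R M ∨
      Pool.Agent.Helper48.V9.RowV Ω R M := by
  obtain ⟨n, x, y, w, t, hR, hM, hn, ⟨rfl, a, ha, h⟩ | ⟨rfl, hn2, a, ha, h⟩ |
    ⟨ht, hp, hpΩ, a, ha, h⟩⟩ := h
  · have h1 := ha 1
    have h2 := ha 2
    have h3 := ha 3
    have h4 := ha 4
    have h6 := ha 6
    exact (Pool.Agent.Helper73.V7.isPullback_elliptic n (a 1) (a 2) (a 3) (a 4) (a 6) (by omega)
      (by omega) (by omega) (by omega) (by omega) x y w hR hM hn h).row.imp id Or.inl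
  · have h1 := ha 1
    have h2 := ha 2
    have h3 := ha 3
    have h4 := ha 4
    have h6 := ha 6
    exact (Pool.Agent.Helper43.AC9.ell_row3 hn2 (a 1) (a 2) (a 3) (a 4) (a 6) (by linarith)
      (by linarith) (by linarith) (by linarith) (by linarith) x y w hR hM hn h).imp id Or.inl
  · have hpf : Fact n.Prime := ⟨hp⟩
    have hch : CharP Ω n := (CharP.charP_iff_prime_eq_zero hp).2 hpΩ
    let _ : Algebra (ZMod n) Ω := ZMod.algebra Ω n
    have h1 := ha 1
    have h2 := ha 2
    have h3 := ha 3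
    have h4 := ha 4
    have h6 := ha 6
    exact (Pool.Agent.Helper43.AC9.ell_rowW (p := n) (a 1) (a 2) (a 3) (a 4) (a 6) (by omega)
      (by omega) (by omega) (by omega) (by omega) x y w t hR hM hn ht.symm h).imp id
      fun h => Or.inr ⟨n, hp, hpΩ, h⟩

/-- The finite abelian extensions `K` of `R` are in the class `P`, if the cyclic extensions `M` of
`R` in `K` are in `P` or satisfy one of the conditions. -/
theorem result {Ω : Type} [Field Ω] [IsAlgClosed Ω]
    {P : (K : Type) → [Field K] → [Algebra Ω K] → Prop} (hP : IsMotivic Ω P)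
    {K : Type} [Field K] [Algebra Ω K] (R : IntermediateField Ω K) (hK : IsAbelianExt R K)
    (hM : ∀ M : IntermediateField R K, IsCyclicExt R M → P M ∨ IsTwist Ω R M ∨ IsWild Ω R M ∨
      IsCurve Ω R M ∨ IsWildCurve Ω R M ∨ IsElliptic Ω R M) : P K := by
  obtain ⟨_, _, hab⟩ := hK
  refine Pool.Agent.Helper43.AC9.mem_rows9 hP R hab fun M hc => ?_
  have hG : IsGalois R M := Pool.Agent.Helper35.WC.isGalois_of_comm hab M
  rcases hM M hc with h | h | ⟨p, x, y, z, w, hR, h1, h2⟩ | h | h | h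
  · exact Or.inl h
  · exact Or.inr (Or.inl (Pool.Agent.Helper73.V7.IsTwist.row h))
  · obtain ⟨hp, hp0, hz, hwp, hK, hdeg⟩ := h1
    exact Or.inr (Or.inr ⟨p, hp, hp0, x, y, z, w, hz, hR, hK, hdeg, hwp, h2⟩)
  · exact (h.row hP).imp id Or.inl
  · exact Or.inr (Or.inr h.row)
  · exact h.row.imp (hP.toAC7.toAC.uniruled _) id

/-- `u = l 0 * w + l 1 * w ^ p + ⋯ + l e * w ^ p ^ e`, where `l 0 ≠ 0` and `l e ≠ 0`. -/
def IsAdditive (Ω : Type) {K : Type} [Field Ω] [Field K] [Algebra Ω K] (p : ℕ) (w u : K) : Prop :=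
  ∃ (e : ℕ) (l : ℕ → Ω), l 0 ≠ 0 ∧ l e ≠ 0 ∧
    u = ∑ i ∈ Finset.range (e + 1), algebraMap Ω K (l i) * w ^ p ^ i

section Examples

variable {Ω : Type} [Field Ω] [IsAlgClosed Ω] {P : (K : Type) → [Field K] → [Algebra Ω K] → Prop}
  (hP : IsMotivic Ω P) {K : Type} [Field K] [Algebra Ω K]

include hP in
/-- **Elliptic surfaces, additive base change.** -/
theorem elliptic_additive {p : ℕ} (hp : p.Prime) (hpΩ : (p : Ω) = 0) (x y w u : K)
    (hK : adjoin Ω {x, y, w} = ⊤) (hu : IsAdditive Ω p w u)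
    (h : IsWeierstrass Ω (2 * max p 3) (max p 3 + 2) x y u) : P K := by
  have hpf : Fact p.Prime := ⟨hp⟩
  have hch : CharP Ω p := (CharP.charP_iff_prime_eq_zero hp).2 hpΩ
  let _ : Algebra (ZMod p) Ω := ZMod.algebra Ω p
  obtain ⟨e, l, hl0, hle, hu⟩ := hu
  obtain ⟨a, ha, h⟩ := h
  have h1 := ha 1
  have h2 := ha 2
  have h3 := ha 3
  have h4 := ha 4
  have h6 := ha 6
  exact Pool.Agent.Helper43.AC9.of_coverW hP hp hpΩ (Pool.Agent.Helper48.V10.isCoverW_ell hl0 hle
    (a 1) (a 2) (a 3) (a 4) (a 6) (by omega) (by omega) (by omega) (by omega) (by omega)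
    x y w u hK hu h)

include hP in
/-- **Elliptic surfaces, cyclic base change.** -/
theorem elliptic_power {n : ℕ} (hn : (n : Ω) ≠ 0) (x y w : K) (hK : adjoin Ω {x, y, w} = ⊤)
    (hd : Module.finrank (adjoin Ω {x, y, w ^ n}) K = n)
    (h : IsWeierstrass Ω 2 1 x y (w ^ n) ∨ IsWeierstrass Ω n (1 + n / 2) x y (w ^ n) ∧
      (2 ∣ n → P (adjoin Ω {x, y, w ^ (n / 2)} : IntermediateField Ω K))) : P K := by
  rcases h with ⟨a, ha, h⟩ | ⟨⟨a, ha, h⟩, h2⟩
  · have h1 := ha 1
    have h2 := ha 2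
    have h3 := ha 3
    have h4 := ha 4
    have h6 := ha 6
    obtain ⟨a', b, c, F, habc, hF, hdeg, h0⟩ := Pool.Agent.Helper73.V7.elliptic_data n
      (a 1) (a 2) (a 3) (a 4) (a 6) (by omega) (by omega) (by omega) (by omega) (by omega) x y w h
    obtain ⟨R, h1, h2, h3, h4⟩ :=
      Pool.Agent.Helper48.V9.power_rows hn a' b c F x y w hK hd habc hF hdeg h0
    exact Pool.Agent.Helper43.AC9.mem_rows9 hP R h3 fun M _ =>
      (h4 M).imp (hP.toAC7.toAC.uniruled _) Or.inl
  · have h1 := ha 1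
    have h3 := ha 2
    have h4 := ha 3
    have h5 := ha 4
    have h6 := ha 6
    exact Pool.Agent.Helper43.AC9.of_rows hP h2 (Pool.Agent.Helper48.V10.ell_rows hn
      (a 1) (a 2) (a 3) (a 4) (a 6) (by linarith) (by linarith) (by linarith) (by linarith)
      (by linarith) x y w hK hd h)

include hP in
/-- **Covers of the plane.** `K` is generated by `x`, `y` and `w_1, …, w_r`, and
`L_i(w_i) = f_i(x, y) / g(x, y) ^ 2`, where the `L_i` are separable additive polynomials. For the
weights `a`, `b` of `x`, `y` the degree of `g` is at most `e ≤ a + b`, and the degrees of the `f_i` are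
at most `d`. -/
theorem plane {p : ℕ} (hp : p.Prime) (hpΩ : (p : Ω) = 0) {a b d e r : ℕ}
    (f : Fin r → MvPolynomial (Fin 2) Ω) (g : MvPolynomial (Fin 2) Ω) (x y : K)
    (w u : Fin r → K) (hK : adjoin Ω ({x, y} ∪ Set.range w) = ⊤)
    (hu : ∀ i, IsAdditive Ω p (w i) (u i))
    (hw : ∀ i, u i * aeval ![x, y] g ^ 2 = aeval ![x, y] (f i)) (hg0 : aeval ![x, y] g ≠ 0)
    (hf : ∀ i, ∀ m ∈ (f i).support, a * m 0 + b * m 1 ≤ d)
    (hg : ∀ m ∈ g.support, a * m 0 + b * m 1 ≤ e) (hab : 0 < a + b) (he : e ≤ a + b)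
    (hd : (max p 3 - 2) * d + 4 * e ≤ 2 * max p 3 * (a + b)) : P K := by
  have hpf : Fact p.Prime := ⟨hp⟩
  have hch : CharP Ω p := (CharP.charP_iff_prime_eq_zero hp).2 hpΩ
  let _ : Algebra (ZMod p) Ω := ZMod.algebra Ω p
  choose j l hl0 hlj hu using hu
  exact Pool.Agent.Helper43.AC9.of_coverW hP hp hpΩ (Pool.Agent.Helper43.AC9.isCoverW_planes j l
    hl0 hlj hab hf hg he hd hK hg0 fun i => by
      rw [← hw i, hu i]
      rfl)

include hP in
/-- **Cyclic base change** of the surfaces `F(x, y, t) = 0`, where for some weights `a`, `b`, `2 * c`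
of the variables the degree of `F` is at most `a + b + c`. -/
theorem power (n : ℕ) (hn : (n : Ω) ≠ 0) (a b c : ℕ) (F : MvPolynomial (Fin 3) Ω) (x y w : K)
    (hK : adjoin Ω {x, y, w} = ⊤) (hd : Module.finrank (adjoin Ω {x, y, w ^ n}) K = n)
    (habc : 0 < a + b + c) (hF : F ≠ 0)
    (hdeg : ∀ m ∈ F.support, a * m 0 + b * m 1 + 2 * c * m 2 ≤ a + b + c)
    (h0 : aeval ![x, y, w ^ n] F = 0) : P K := by
  obtain ⟨R, h1, h2, h3, h4⟩ :=
    Pool.Agent.Helper48.V9.power_rows hn a b c F x y w hK hd habc hF hdeg h0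
  exact Pool.Agent.Helper43.AC9.mem_rows9 hP R h3 fun M _ =>
    (h4 M).imp (hP.toAC7.toAC.uniruled _) Or.inl

include hP in
/-- **Cyclic base change** of the double planes `y ^ 2 = G(x, t) * y + F(x, t)`. The weights of
`x`, `w` are `a`, `1`. -/
theorem double_power (n : ℕ) (hn : (n : Ω) ≠ 0) (a : ℕ) (F G : MvPolynomial (Fin 2) Ω) (x y w : K)
    (hK : adjoin Ω {x, y, w} = ⊤) (hd : Module.finrank (adjoin Ω {x, y, w ^ n}) K = n)
    (hF : ∀ m ∈ F.support, a * m 0 + n * m 1 ≤ 2 * (a + 1 + n / 2))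
    (hG : ∀ m ∈ G.support, a * m 0 + n * m 1 ≤ a + 1 + n / 2)
    (hy : y ^ 2 = aeval ![x, w ^ n] G * y + aeval ![x, w ^ n] F)
    (h2 : 2 ∣ n → P (adjoin Ω {x, y, w ^ (n / 2)} : IntermediateField Ω K)) : P K :=
  Pool.Agent.Helper43.AC9.of_rows hP h2 (Pool.Agent.Helper48.V10.dbl_rows' hn a F G x y w hK hd
    hF hG hy)

include hP in
/-- **Additive base change** of the surfaces `F(x, y, t) = 0`, where for some weights `a`, `b`,
`2 * c` of the variables the degree of `F` is at most `a + b + c`. -/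
theorem additive {p : ℕ} (hp : p.Prime) (hpΩ : (p : Ω) = 0) (a b c : ℕ)
    (F : MvPolynomial (Fin 3) Ω) (x y w u : K) (hK : adjoin Ω {x, y, w} = ⊤)
    (hu : IsAdditive Ω p w u) (habc : 0 < a + b + c) (hF : F ≠ 0)
    (hdeg : ∀ m ∈ F.support, a * m 0 + b * m 1 + 2 * c * m 2 ≤ a + b + c)
    (h0 : aeval ![x, y, u] F = 0) : P K := by
  have hpf : Fact p.Prime := ⟨hp⟩
  have hch : CharP Ω p := (CharP.charP_iff_prime_eq_zero hp).2 hpΩ
  let _ : Algebra (ZMod p) Ω := ZMod.algebra Ω p
  obtain ⟨e, l, hl0, hle, rfl⟩ := hu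
  exact Pool.Agent.Helper43.AC9.of_coverW hP hp hpΩ
    (Pool.Agent.Helper73.SS.isCoverW_add hl0 hle a b c F x y w hK habc hF hdeg h0)

include hP in
/-- **Additive base change** of the double planes `y ^ 2 = G(x, t) * y + F(x, t)`. The weights of
`x`, `t` are `a`, `b`. -/
theorem double_additive {p : ℕ} (hp : p.Prime) (hpΩ : (p : Ω) = 0) (a b g h : ℕ)
    (hh : (if p = 2 then 3 else 2) * h ≤ b) (hg : p * g ≤ b) (hpos : 0 < a + h + g)
    (F G : MvPolynomial (Fin 2) Ω) (x y w u : K) (hK : adjoin Ω {x, y, w} = ⊤)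
    (hu : IsAdditive Ω p w u) (hF : ∀ m ∈ F.support, a * m 0 + b * m 1 ≤ 2 * (a + h + g))
    (hG : ∀ m ∈ G.support, a * m 0 + b * m 1 ≤ a + h + g)
    (hy : y ^ 2 = aeval ![x, u] G * y + aeval ![x, u] F) : P K := by
  have hpf : Fact p.Prime := ⟨hp⟩
  have hch : CharP Ω p := (CharP.charP_iff_prime_eq_zero hp).2 hpΩ
  let _ : Algebra (ZMod p) Ω := ZMod.algebra Ω p
  obtain ⟨e, l, hl0, hle, rfl⟩ := hu
  exact Pool.Agent.Helper43.AC9.of_coverW hP hp hpΩ
    (Pool.Agent.Helper48.V10.isCoverW_dbl' hl0 hle hh hg hpos F G x y w hK hF hG hy)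

end Examples

end Pool.Agent.Results.MP_e93a6a_ag.AbelianCovers
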