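import Pool.Agent.Helper43.AC7.Defs
import Pool.Agent.Helper40.CX.BC.Final
import Pool.Agent.Helper40.CX.BC.KFinal
import Pool.Agent.Helper40.CX.BC.KFinal2
import Pool.Agent.Helper40.CX.H67KQ.Main2

/-!
# Motives of K3 surfaces and of surfaces of general type with `p_g = 1` over finite fields

Authors of the library on zero-cycles, `Pool.Agent.Helper40.CX`: helper26, helper83, helper51,
helper94, helper70, helper71, helper17, helper9 and helper21 (in characteristic zero), helper40 (in
characteristic different from `2` and `3`; extension of the constants). Surfaces of general type with
`p_g = 1`: helper15, helper83, helper50, helper67, helper5, helper17, helper56, helper63, helper70,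
helper96 and helper16 (in characteristic zero, `KSquareOne` and `KSquareTwo` of problem MP_83b46e),
helper83, helper40, helper17, helper67, helper43 and helper98 (in characteristic different from `2`
and `3`). The rules for the motives of abelian covers are those of `AbelianCovers` (helper43,
helper75).

The theorem gives the finite generation conjecture in negative weights, over finite fields of
characteristic `p ≥ 5`, for

* all K3 surfaces which have a genus one fibration over the algebraic closure of the field (each K3
  surface whose Picard number over the algebraic closure, an even number, is different from `2` and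
  `4` has one);
* all minimal surfaces `S` of general type with `p_g = K ^ 2 = 1` and `h ^ 1(O_S) = 0`;
* the minimal surfaces of general type with `p_g = 1`, `K ^ 2 = 2` which have a free double cover whose
  canonical model is a complete intersection of two quartics in `ℙ(1, 1, 1, 2, 2)` (in characteristic
  zero these are all surfaces with `p_g = 1`, `q = 0`, `K ^ 2 = 2` and a torsion class of order two);

for the products of such surfaces, and for surfaces which are built from them. (The surfaces of
general type for which the `j`-invariant below is constant are not in the Lean statement. Their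
motives are of abelian type, and the conjecture is known for them.)

Let `O` be an algebraic closure of a finite field of characteristic `p ≥ 5`, and `P K` the statement:
each finitely generated extension of `O` in `K` has transcendence degree at most two and is the
function field of a point, a curve or a smooth projective surface `S`, defined over a finite field
`𝔽_q`, with the property

(W) `f(F) = 0` in the ring of correspondences `CH ^ 2(S × S) ⊗ ℚ` for the Frobenius endomorphism `F`
of `S` over `𝔽_q` and a polynomial `f ≠ 0` whose roots have absolute values `q ^ (i / 2)`,
`0 ≤ i ≤ 4`.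

(W) does not depend on the choice of `S` in its birational class and of `𝔽_q`. The class `P` has the
properties of `IsMotivic`:

* `sub`: clear; `product`: the products of two curves satisfy (W);
* `abelian`: for a finite abelian group `G` acting on a surface `S` the motive `M(S)`, with
  coefficients in an algebraic closure of `ℚ`, is the sum of its eigenparts `M(S)_χ`, and `M(S)_χ` is
  a direct summand of the motive of the surface `S / ker χ`, a cyclic cover of `S / G`;
* `voisin`: let `S` be a smooth projective surface over `𝔽_q` such that for each algebraically closed
  extension `Ω` of `O` and all zero-cycles `a`, `b` of degree zero on `S_Ω` the cycle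
  `a × b - b × a` is torsion in the Chow group `CH_0((S × S)_Ω)`. Then `S` satisfies (W). If the
  function field of `S` is contained in `M`, and `HasVoisin O M` holds, then `S` has this property:
  let `ξ` be the homogeneous coordinates, in `M`, of the generic point of `S ⊆ ℙ ^ (N - 1)`. The field
  `F` of `HasVoisin` is the field of fractions of `Ω ⊗ M`, and `proj Ω (van Ω ξ)` is `S_Ω`.

Proof of `voisin`. It suffices to consider the direct summand `t = t_2(S)` of `M(S)`, the
transcendental part of `h ^ 2(S)`: the others come from curves. Let `Ω` be an algebraic closure of the
function field of `S × S`, `(η₁, η₂)` the generic point of `S × S`, `a = η₁ - o`, `b = η₂ - o`. By the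
argument of Bloch and Srinivas the projector `e` of `M(S × S)` on `Λ ^ 2 t` factors through the motive
of a smooth projective threefold `D`, an alteration of a divisor on `S × S`, in such a way that the
endomorphism `z ↦ eᵗ(z) = e(z)` of `CH ^ 2(S × S) ⊗ ℚ` factors through `CH ^ 1(D) ⊗ ℚ`. It vanishes
on the cycles numerically equivalent to zero, because a divisor on `D`, defined over a finite field,
which is numerically equivalent to zero, is torsion. So

(1) each numerically trivial endomorphism `n` of `t` is symmetric: `n = nᵗ`.

Let `n` be defined over `𝔽_q`. By (1) for `n` and for `n F`, and because `F` commutes with `n` and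
`Fᵗ = q ^ 2 F ^ (-1)` on `t`, we have `n F = (n F)ᵗ = Fᵗ nᵗ = q ^ 2 n F ^ (-1)`, that is

(2) `n (F ^ 2 - q ^ 2) = 0`.

For `n = f₀(F)`, where `f₀` is the minimal polynomial of the Frobenius endomorphism of the numerical
motive of `t`, whose roots have the absolute value `q`, (2) is an equation for `F` on `t`. ∎

Consequences. The Frobenius endomorphism acts as the multiplication by `q ^ m` on the motivic
cohomology `H ^ j(S, ℚ(m))`. If `S` satisfies (W), then `f(q ^ m) ≠ 0` for `m > 2`, so that
`H ^ j(S, ℚ(m)) = 0` for `m > 2` and all `j`, and `H ^ i(S, ℤ ^ c(n))` is finite for `n < 0` and all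
`i`. (W) is inherited by products (with the weights `0 ≤ i ≤ 2 * dim`). By localisation we get the
same for all separated schemes `X` of finite type over `𝔽_q` of dimension at most two such that the
function fields of `X` over `O` are in `P`, also if they are singular, for the products of such
schemes, and for all varieties whose motive is in the thick tensor category generated by their
motives, for example Hilbert schemes and moduli spaces of stable sheaves on these K3 surfaces.
Moreover `H ^ j(t, ℚ(m)) = 0` for `m ≥ 2` in the situation of `voisin`: Parshin's conjecture
(`K_i(X) ⊗ ℚ = 0` for `i > 0`) holds for `X = S` and for the product `X = S × C` of `S` and a curve,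
and rational and numerical equivalence agree in `CH ^ *(X) ⊗ ℚ`. The motives of these surfaces are
not known to be finite dimensional in the sense of Kimura, with the exception of the surfaces which
are dominated by abelian surfaces or products of curves.

The theorem. The class `P` contains the field `K` if it is a finite abelian extension of `R`, for
example `R = K`, and each cyclic extension `M` of `R` in `K` is in the class or is contained in the
function field of one of the following surfaces `S`. The mechanism is the theorem `voisin`: these
surfaces satisfy `HasVoisin`, the conjecture of Voisin on zero-cycles, over every algebraically closed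
field of characteristic different from `2` and `3`.

* (`IsGenusOne`) Surfaces with a fibration over the projective line whose generic fibre `C` is a curve
  of genus one, a torsor under an elliptic curve with a minimal equation
  `y ^ 2 = x ^ 3 + A(t) * x + B(t)`, where `A` and `B` are forms of the degrees `8` and `12` (this means
  `χ(O_S) = 2`). The torsor is arbitrary; it is given by a finite Galois extension `L` of `O(t)` over
  which it has a point, by its function field `E` over `L` and by the action of the Galois group.
* (`IsKSquareOne`) The complete intersections `z ^ 2 = x₀ * a * w + f`, `w ^ 2 = x₀ * b * z + g` in the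
  weighted projective space `ℙ(1, 2, 2, 3, 3)`, where `a`, `b`, `f`, `g` are forms of the degrees `1`,
  `1`, `3`, `3` in `y₁`, `y₂`, `y₃ = x₀ ^ 2`, if the family of the plane cubics
  `C_l : l ^ 3 * y₃ * b ^ 2 - 4 * l ^ 2 * g + 4 * l * f - y₃ * a ^ 2 = 0` has a smooth member and its
  `j`-invariant is not constant. If `a = 0` it is assumed that the derivatives of `f` with respect to
  `y₁` and `y₂` are linearly independent: otherwise the surface has a singular point which is not a
  rational double point. The same for `b = 0` and `g`.
* (`IsKSquareTwo`) The quotients `T / ι` of the complete intersections `T` of two quartics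
  `p₁ ^ 2 = a * p₃ * p₂ + f`, `p₂ ^ 2 = b * p₃ * p₁ + g` in `ℙ(1, 1, 1, 2, 2)`, with the coordinates `y₁`,
  `y₂`, `p₃`, `p₁`, `p₂`, where `a` and `b` are linear forms in `y₁`, `y₂`, `f` and `g` are quartic forms
  in `y₁`, `y₂`, `p₃` which are even in `p₃`, and `ι` changes the signs of `p₃`, `p₁`, `p₂`; the
  conditions are analogous, for the curves of genus one `y ^ 2 = disc_l`, where `disc_l` is the
  discriminant of `C_l : l ^ 3 * t * b ^ 2 - 4 * l ^ 2 * g + 4 * l * f - t * a ^ 2 = 0` with respect to
  `t = p₃ ^ 2`.

Examples (the computation of the Jacobian fibration and the remarks on general type are not in Lean):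

* K3 surfaces with a genus one fibration (it is not quasi-elliptic, because `p ≥ 5`); surfaces of
  Kodaira dimension one over `ℙ ^ 1` with `χ(O) = 2` and arbitrary multiple fibres;
* double planes along sextics with a singular point, for example along a quintic and a line:
  `K = O(u, x, w)`, where `w ^ 2 = a₀(u) * x ^ 4 + a₁(u) * x ^ 3 + a₂(u) * x ^ 2 + a₃(u) * x + a₄(u)`,
  `deg aᵢ ≤ i + 2`, and double covers of `ℙ ^ 1 × ℙ ^ 1` along curves of bidegree `(4, 4)` (if the
  equation of the Jacobian fibration is not minimal, or its discriminant is zero, then `p_g = 0` or
  the surface is ruled, and (W) is known);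
* surfaces of general type with `p_g = K ^ 2 = 1`, `h ^ 1(O_S) = 0` (`18` moduli). Their canonical models
  are the complete intersections of type `(6, 6)` in `ℙ(1, 2, 2, 3, 3)` with rational double points
  (Catanese, Todorov; the proof is valid for `p ≥ 5`, since `H ^ 1(S, ω ^ m) = 0` for `m ≠ 0, 1` by a
  theorem of Ekedahl), and the equations can be brought in the form above. A smooth cubic `C_l`
  exists, as otherwise `p_g = 0`. So all these surfaces satisfy `IsKSquareOne`, if the `j`-invariant
  of `C_l` is not constant; if it is constant then the motive of `S` is of abelian type, because a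
  surface with a fibration by the curves `C_l` is dominated by a product of curves;
* surfaces of general type `T / ι` with `p_g = 1`, `K ^ 2 = 2` (`16` moduli): `T` has rational double
  points, and `ι` is free on `T`. In characteristic zero all minimal surfaces with `p_g = 1`, `q = 0`,
  `K ^ 2 = 2` and a torsion class of order two are such quotients (Catanese, Debarre). A smooth curve
  `y ^ 2 = disc_l` exists, and the `j`-invariant is as for `K ^ 2 = 1`;
* their composites, for example the covers of `ℙ ^ 2` with the group `(ℤ / 2) ^ 2` which are branched
  along three arbitrary cubics, surfaces of general type with `p_g = 3`, and the composites with the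
  abelian covers in `AbelianCovers`.
-/

set_option autoImplicit false

namespace Pool.Agent.Results.MP_e93a6a_ag.K3Surfaces

open IntermediateField CX CX.VC CX.BC CX.Pool.Agent.Helper21.TO Pool.Agent.Helper43.AC7
open CX.Pool.Agent.Helper51.EW (Wei)
open CX.Pool.Agent.Helper15.KP (kp_data kp_data2)

/-- For each algebraically closed extension `Ω` of `O` and each projective variety over `Ω` whose
generic point has its homogeneous coordinates `ξ` in the field `F` obtained from `M` by the extension
of the constants from `O` to `Ω`: for all zero-cycles `a`, `b` of degree zero a positive multiple of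
`a × b - b × a` is rationally equivalent to zero. -/
def HasVoisin (O M : Type) [Field O] [Field M] [Algebra O M] : Prop :=
  ∀ (Ω : Type) [Field Ω] [Algebra O Ω] [IsAlgClosed Ω] [Good Ω],
    ∃ (F : Type) (_ : Field F) (_ : Algebra Ω F) (i : M →+* F), IsConst O Ω M F i ∧
      ∀ (N : ℕ) (ξ : Fin N → F), ξ ≠ 0 → ∀ a b : (proj Ω (van Ω ξ)).Cycles,
        (a.sum fun _ c => c) = 0 → (b.sum fun _ c => c) = 0 →
          ∃ m : ℕ, 0 < m ∧ m • (extProd ![a, b] - extProd ![b, a]) ∈
            ((proj Ω (van Ω ξ)).pow 2).Rat

/-- A class of extensions of `O` with the formal properties of the class of all extensions for which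
the function fields contained in it belong to curves and surfaces with a motive whose Frobenius
endomorphism satisfies an equation. -/
structure IsMotivic (O : Type) [Field O] (P : (K : Type) → [Field K] → [Algebra O K] → Prop) :
    Prop where
  /-- subfields -/
  sub : ∀ (K K₀ : Type) [Field K] [Algebra O K] [Field K₀] [Algebra O K₀], (K₀ →ₐ[O] K) →
    P K → P K₀
  /-- products of curves -/
  product : ∀ (K : Type) [Field K] [Algebra O K], IsProduct O K → P K
  /-- the decomposition of the motive of an abelian cover -/
  abelian : HasAbelian O P
  /-- surfaces with `a × b = b × a` -/
  voisin : ∀ (M : Type) [Field M] [Algebra O M], Algebra.trdeg O M ≤ 2 → HasVoisin O M → P M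

/-- `M` is contained in the function field of a surface with a genus one fibration over the
projective line and `χ(O) = 2`: the minimal Weierstrass equation of the Jacobian fibration has
coefficients `A` and `B` of degrees `8` and `12`. -/
def IsGenusOne (O M : Type) [Field O] [Field M] [Algebra O M] : Prop :=
  ∃ (W : Wei O) (L E : Type) (_ : Field L) (_ : Algebra O L) (_ : Field E) (_ : Algebra O E)
    (_ : Algebra L E) (_ : IsScalarTower O L E) (T : Torsor W L E) (f : M →ₐ[O] E),
    W.N = 2 ∧ 4 * W.A ^ 3 + 27 * W.B ^ 2 ≠ 0 ∧ Minimal W ∧ ∀ z, ∀ σ ∈ T.G, σ (f z) = f z

/-- `M` is contained in the function field `F` of a surface with the equations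
`z ^ 2 = a * w + f`, `w ^ 2 = b * z + g`, where `a`, `b` are linear forms and `f`, `g` cubic forms in `s`,
`t`, `1`, and `[F : O(s, t)] = 4`; if `a = 0` then the first two derivatives of `f` are linearly
independent (`Indep2`), and the same for `b` and `g`; one of the plane cubics
`l ^ 3 * X 2 * b ^ 2 - 4 * l ^ 2 * g + 4 * l * f - X 2 * a ^ 2 = 0`, `l ∈ O`, is smooth, and two of them have
different `j`-invariants (`HasModuli`). -/
def IsKSquareOne (O M : Type) [Field O] [Field M] [Algebra O M] : Prop :=
  ∃ (F : Type) (_ : Field F) (_ : Algebra O F) (_ : M →ₐ[O] F) (a b f g : MvPolynomial (Fin 3) O)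
    (s t z w : F), KData a b f g s t z w

/-- `M` is contained in the function field `F` of a surface with the equations
`t * z ^ 2 = t * a * w + f`, `t * w ^ 2 = t * b * z + g`, where `f = f0 * t ^ 2 + f2 * t + f4`,
`g = g0 * t ^ 2 + g2 * t + g4`, and `a`, `b`, `f2`, `g2`, `f4`, `g4` are polynomials in `s` of degrees at
most `1`, `1`, `2`, `2`, `4`, `4`, and `[F : O(s, t)] = 4`; if `a = 0` then the derivatives of `f`, a form in
`s`, `1` and `t` (of weight two), with respect to the first two variables are linearly independent
(`IndepS`), and the same for `b` and `g`; one of the curves `y ^ 2 = disc_l(s)`, where `disc_l` is the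
discriminant of `l ^ 3 * t * b ^ 2 - 4 * l ^ 2 * g + 4 * l * f - t * a ^ 2` with respect to `t`, `l ∈ O`, is
smooth, and two of them have different `j`-invariants (`HasModuli2`). -/
def IsKSquareTwo (O M : Type) [Field O] [Field M] [Algebra O M] : Prop :=
  ∃ (F : Type) (_ : Field F) (_ : Algebra O F) (_ : M →ₐ[O] F)
    (a b f2 g2 f4 g4 : Polynomial O) (f0 g0 : O) (s t z w : F),
    KData2 a b f2 g2 f4 g4 f0 g0 s t z w

/-- Surfaces with a genus one fibration over the projective line and `χ(O) = 2`, such as K3 surfaces,
and surfaces of general type with `p_g = 1` and `K ^ 2 = 1`, or `K ^ 2 = 2` and a torsion class of order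
two, satisfy the conjecture of Voisin on zero-cycles. -/
theorem voisin {O : Type} [Field O] [IsAlgClosed O] [Good O] {M : Type} [Field M] [Algebra O M]
    (h : IsGenusOne O M ∨ IsKSquareOne O M ∨ IsKSquareTwo O M) :
    Algebra.trdeg O M ≤ 2 ∧ HasVoisin O M := by
  rcases h with ⟨W, L, E, _, _, _, _, _, _, T, f, hN, hΔ, hW, hf⟩ |
    ⟨F, _, _, e, a, b, f, g, s, t, z, w, h⟩ |
    ⟨F, _, _, e, a, b, f2, g2, f4, g4, f0, g0, s, t, z, w, h⟩
  · exact ⟨trdeg_le T f, fun Ω _ _ _ _ => voisin_const hN hΔ hW T f hf Ω⟩
  · exact ⟨trdeg_ksq h e, fun Ω _ _ _ _ => voisin_ksq h e Ω fun B _ _ a b f g s t z w h' =>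
      kp_data h'⟩
  · exact ⟨trdeg_ksq2 h e, fun Ω _ _ _ _ => voisin_ksq2 h e Ω
      fun B _ _ a b f2 g2 f4 g4 f0 g0 s t z w h' => kp_data2 h'⟩

/-- The finite abelian extensions `K` of `R` are in the class `P`, if the cyclic extensions `M` of
`R` in `K` are in `P` or are contained in the function fields of surfaces with a genus one fibration
over the projective line and `χ(O) = 2`, such as K3 surfaces, or of surfaces of general type with
`p_g = 1` and `K ^ 2 = 1`, or `K ^ 2 = 2` and a torsion class of order two. -/
theorem result {O : Type} [Field O] [IsAlgClosed O] [Good O]
    {P : (K : Type) → [Field K] → [Algebra O K] → Prop} (hP : IsMotivic O P)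
    {K : Type} [Field K] [Algebra O K] (R : IntermediateField O K) (hK : IsAbelianExt R K)
    (hM : ∀ M : IntermediateField R K, IsCyclicExt R M →
      P M ∨ IsGenusOne O M ∨ IsKSquareOne O M ∨ IsKSquareTwo O M) : P K := by
  refine hP.abelian K R hK fun M hc => ?_
  rcases hM M hc with h | h
  · exact h
  · exact hP.voisin M (voisin h).1 (voisin h).2

end Pool.Agent.Results.MP_e93a6a_ag.K3Surfaces
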